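import Pool.Graph.R_seed8.Helper878.PM.Final

set_option autoImplicit false

namespace Pool.Agent.Results.MP_52eb9f_al.NoInfiniteFreeFactor

open Pool.Agent.Helper878.PM

theorem key {Q : Type} [Group Q] (j : Q →* PP') (p : ℕ → PP')
    (hclos : Subgroup.closure (Set.range j ∪ Set.range p) = ⊤)
    (hd : ∀ x1 : ℕ, ∃ δ : PP' →* Aff AG RR, (∀ q, δ (j q) = ⟨(j q).1.a, 0⟩) ∧
      ∀ x, δ (p x) = ⟨(p x).1.a, if x = x1 then 1 else 0⟩) : False := by
  -- the special element
  have hpfm : (⟨yy (Sum.inl vth : YY), Finsupp.single (Sum.inl vth) 1⟩ : Aff AG (YY →₀ RR)) ∈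
      PQ dd EE := by
    rw [mem_PQ]
    refine ⟨hd_dd _, EE_of_phi ?_⟩
    rw [phi_single, one_smul]
    rfl
  let pf : PP' := ⟨⟨yy (Sum.inl vth : YY), Finsupp.single (Sum.inl vth) 1⟩, hpfm⟩
  -- finitely many of the `p x` suffice
  obtain ⟨X0, hX0, hpf⟩ : ∃ X0 : Set ℕ, X0.Finite ∧
      pf ∈ Subgroup.closure (Set.range j ∪ p '' X0) := by
    have h1 : ∀ y ∈ Subgroup.closure (Set.range j ∪ Set.range p), ∃ X0 : Set ℕ, X0.Finite ∧
        y ∈ Subgroup.closure (Set.range j ∪ p '' X0) := by
      intro y hy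
      induction hy using Subgroup.closure_induction with
      | mem y hy =>
        rcases hy with hy | ⟨x, rfl⟩
        · exact ⟨∅, Set.finite_empty, Subgroup.subset_closure (Or.inl hy)⟩
        · exact ⟨{x}, Set.finite_singleton x, Subgroup.subset_closure (Or.inr ⟨x, rfl, rfl⟩)⟩
      | one => exact ⟨∅, Set.finite_empty, Subgroup.one_mem _⟩
      | mul a b _ _ ha hb =>
        obtain ⟨X1, h1, h1'⟩ := ha
        obtain ⟨X2, h2, h2'⟩ := hb
        refine ⟨X1 ∪ X2, h1.union h2, Subgroup.mul_mem _ ?_ ?_⟩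
        · exact Subgroup.closure_mono
            (Set.union_subset_union_right _ (Set.image_mono Set.subset_union_left)) h1'
        · exact Subgroup.closure_mono
            (Set.union_subset_union_right _ (Set.image_mono Set.subset_union_right)) h2'
      | inv a _ ha =>
        obtain ⟨X1, h1, h1'⟩ := ha
        exact ⟨X1, h1, Subgroup.inv_mem _ h1'⟩
    exact h1 pf (by rw [hclos]; exact Subgroup.mem_top _)
  obtain ⟨x1, hx1⟩ : ∃ x1 : ℕ, x1 ∉ X0 := hX0.exists_notMem
  obtain ⟨δ, hδj, hδp⟩ := hd x1
  have hδa : ∀ y, (δ y).a = y.1.a := by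
    have h1 : Aff.pr.comp δ = Aff.pr.comp (PQ dd EE).subtype := by
      refine MonoidHom.eq_of_eqOn_dense hclos ?_
      rintro _ (⟨q, rfl⟩ | ⟨x, rfl⟩)
      · rw [MonoidHom.comp_apply, hδj]; rfl
      · rw [MonoidHom.comp_apply, hδp]; rfl
    intro y
    exact DFunLike.congr_fun h1 y
  have hδf : (δ pf).v = 0 := by
    let K : Subgroup PP' :=
      { carrier := {y | (δ y).v = 0}
        one_mem' := by simp
        mul_mem' := by
          intro a b ha hb
          simp only [Set.mem_ofPred_eq] at ha hb ⊢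
          rw [map_mul, Aff.mul_v, ha, hb]; simp
        inv_mem' := by
          intro a ha
          simp only [Set.mem_ofPred_eq] at ha ⊢
          rw [map_inv, Aff.inv_v, ha]; simp }
    have hK : Subgroup.closure (Set.range j ∪ p '' X0) ≤ K := by
      rw [Subgroup.closure_le]
      rintro _ (⟨q, rfl⟩ | ⟨x, hx, rfl⟩)
      · show (δ (j q)).v = 0
        rw [hδj]
      · show (δ (p x)).v = 0
        rw [hδp]
        have : x ≠ x1 := fun h => hx1 (h ▸ hx)
        simp [this]
    exact hK hpf
  -- the linear functional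
  let L : (YY →₀ RR) →ₗ[RR] RR :=
    Finsupp.linearCombination RR (fun y => (δ (rho EE_EE dd_EE (cP hd_dd y))).v)
  have hL : (Aff.map L).comp (PS dd).subtype = δ.comp (rho EE_EE dd_EE) := by
    refine hom_ext_PS yy_gen hd_dd ?_
    intro y
    rw [MonoidHom.comp_apply, MonoidHom.comp_apply]
    ext1
    · rw [hδa]; rfl
    · show L (Finsupp.single y 1) = _
      simp [L]
  have hL' : ∀ y : PP', L y.1.v = (δ y).v := by
    intro y
    have h := congrArg Aff.v (DFunLike.congr_fun hL (Subgroup.inclusion PQ_le y))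
    rw [MonoidHom.comp_apply, MonoidHom.comp_apply, rho_incl] at h
    exact h
  have hLf : L (Finsupp.single (Sum.inl vth) 1) = 0 := by
    have := hL' pf
    rw [hδf] at this
    exact this
  have hLp : L (p x1).1.v = 1 := by
    rw [hL', hδp]; simp
  -- the unimodular element
  refine no_unimod ((p x1).1.v - Finsupp.single (Sum.inl vth) ((p x1).1.v (Sum.inl vth)))
    ?_ ?_ L ?_
  · simp
  · rw [map_sub, phi_of_EE (mem_PQ.mp (p x1).2).2, phi_single]
    have : phi0 (Sum.inl vth) = 0 := rfl
    rw [this]; simp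
  · rw [map_sub, hLp]
    have : (Finsupp.single (Sum.inl vth) ((p x1).1.v (Sum.inl vth)) : YY →₀ RR)
        = (p x1).1.v (Sum.inl vth) • Finsupp.single (Sum.inl vth) 1 := by
      rw [Finsupp.smul_single, smul_eq_mul, mul_one]
    rw [this, map_smul, hLf]
    simp

/-- The coproduct, in the variety of metabelian groups, of (the largest metabelian quotient of)
`Q` and a free metabelian group of countably infinite rank: the quotient of the free product
`Q * F_ω` by its second derived subgroup. -/
abbrev FreeSum (Q : Type) [Group Q] : Type :=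
  Monoid.Coprod Q (FreeGroup ℕ) ⧸ derivedSeries (Monoid.Coprod Q (FreeGroup ℕ)) 2

theorem metab_ker {W G : Type} [Group W] [Group G] (hG : derivedSeries G 2 = ⊥) (f : W →* G) :
    derivedSeries W 2 ≤ f.ker := by
  have h := map_derivedSeries_le_derivedSeries f 2
  rw [hG] at h
  intro x hx
  rw [MonoidHom.mem_ker, ← Subgroup.mem_bot]
  exact h ⟨x, hx, rfl⟩

/-- the zero section -/
noncomputable def sec : AG →* Aff AG RR where
  toFun a := ⟨a, 0⟩
  map_one' := rfl
  map_mul' a b := by ext1 <;> simp

theorem not_freeSum (Q : Type) [Group Q] (e : PP' ≃* FreeSum Q) : False := by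
  classical
  let F : Monoid.Coprod Q (FreeGroup ℕ) →* PP' := e.symm.toMonoidHom.comp (QuotientGroup.mk' _)
  have hFe : ∀ w, e (F w) = QuotientGroup.mk w := fun w => e.apply_symm_apply _
  refine key (F.comp Monoid.Coprod.inl) (fun x => F (Monoid.Coprod.inr (FreeGroup.of x))) ?_
    fun x1 => ?_
  · rw [eq_top_iff]
    rintro y -
    obtain ⟨w, hw⟩ := QuotientGroup.mk_surjective (e y)
    have hy : y = F w := by
      apply e.injective
      rw [hFe, hw]
    rw [hy]
    clear hw hy
    induction w using Monoid.Coprod.induction_on with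
    | inl q => exact Subgroup.subset_closure (Or.inl ⟨q, rfl⟩)
    | inr f =>
      induction f using FreeGroup.induction_on with
      | C1 => rw [map_one, map_one]; exact Subgroup.one_mem _
      | of v => exact Subgroup.subset_closure (Or.inr ⟨v, rfl⟩)
      | inv_of v ih => rw [map_inv, map_inv]; exact Subgroup.inv_mem _ ih
      | mul a b ha hb => rw [map_mul, map_mul]; exact Subgroup.mul_mem _ ha hb
    | mul a b ha hb => rw [map_mul]; exact Subgroup.mul_mem _ ha hb
  · let j : Q →* PP' := F.comp Monoid.Coprod.inl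
    let ηQ : Q →* Aff AG RR := sec.comp ((Aff.pr.comp (PQ dd EE).subtype).comp j)
    let ηF : FreeGroup ℕ →* Aff AG RR :=
      FreeGroup.lift fun x => ⟨(F (Monoid.Coprod.inr (FreeGroup.of x))).1.a,
        if x = x1 then 1 else 0⟩
    let η : Monoid.Coprod Q (FreeGroup ℕ) →* Aff AG RR := Monoid.Coprod.lift ηQ ηF
    let ηb : FreeSum Q →* Aff AG RR := QuotientGroup.lift _ η (metab_ker metab_Aff η)
    refine ⟨ηb.comp e.toMonoidHom, fun q => ?_, fun x => ?_⟩
    · show ηb (e (F (Monoid.Coprod.inl q))) = _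
      rw [hFe]
      show η (Monoid.Coprod.inl q) = _
      rw [Monoid.Coprod.lift_apply_inl]
      rfl
    · show ηb (e (F (Monoid.Coprod.inr (FreeGroup.of x)))) = _
      rw [hFe]
      show η (Monoid.Coprod.inr (FreeGroup.of x)) = _
      rw [Monoid.Coprod.lift_apply_inr]
      simp [ηF]

/-- There is a projective metabelian group of countably infinite rank which has no free factor of
infinite rank in the variety of metabelian groups (and so is not free metabelian). -/
theorem result : ∃ (P : Type) (_ : Group P), derivedSeries P 2 = ⊥ ∧ Countable P ∧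
    ¬ Group.FG P ∧
    (∀ (G H : Type) [Group G] [Group H], derivedSeries G 2 = ⊥ → derivedSeries H 2 = ⊥ →
      ∀ f : G →* H, Function.Surjective f → ∀ g : P →* H, ∃ h : P →* G, f.comp h = g) ∧
    ∀ (Q : Type) [Group Q], IsEmpty (P ≃* FreeSum Q) :=
  ⟨PP', inferInstance, metabelian, countable_PP, not_fg,
    fun _ _ _ _ hG _ f hf g => projective hG f hf g, fun Q _ => ⟨not_freeSum Q⟩⟩

end Pool.Agent.Results.MP_52eb9f_al.NoInfiniteFreeFactor
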